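import Mathlib

open Polynomial

namespace Pool.Agent.Helper47.SplMix

/-- Linear functionals modulo all powers of `p`, taking the value `1` modulo `p ^ N`, give an
honest linear functional whose value is not in `m` (Artin-Rees). -/
theorem exists_functional {R : Type*} [CommRing R] [IsNoetherianRing R] (m : Ideal R)
    (hm : m ≠ ⊤) (p : R) (hp : p ∈ m) {A : Type*} [CommRing A] [Algebra R A]
    (hret : ∀ S : Set A, S.Finite → ∃ σ : Algebra.adjoin R S →ₗ[R] R, 1 - σ 1 ∈ m)
    {M : Type*} [AddCommGroup M] [Module R M] [Module.Finite R M] (x0 : M)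
    (H : ∀ N : ℕ, ∃ ψ : M →ₗ[R] (A ⧸ Ideal.span {algebraMap R A p ^ N}), ψ x0 = 1) :
    ∃ ρ : M →ₗ[R] R, ρ x0 ∉ m := by
  classical
  obtain ⟨g, π, hπ⟩ := Module.Finite.exists_fin' R M
  obtain ⟨r, β', hβ'⟩ := Module.Finite.exists_fin' R (LinearMap.ker π)
  let β : (Fin r → R) →ₗ[R] (Fin g → R) := (LinearMap.ker π).subtype.comp β'
  obtain ⟨y0, hy0⟩ := hπ x0
  let B : ((Fin g → R) →ₗ[R] R) →ₗ[R] ((Fin r → R) →ₗ[R] R) := LinearMap.lcomp R R β
  have hB : ∀ v, B v = v.comp β := fun v => rfl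
  obtain ⟨k, hk⟩ := Ideal.exists_pow_inf_eq_pow_smul (Ideal.span {p}) (LinearMap.range B)
  obtain ⟨ψ, hψ⟩ := H (k + 1)
  choose a ha using fun i : Fin g => Ideal.Quotient.mk_surjective (ψ (π (Pi.single i 1)))
  have hψπ : ∀ y : Fin g → R, ψ (π y) = Ideal.Quotient.mk _ (∑ i, y i • a i) := by
    intro y
    have h1 : y = ∑ i, y i • (Pi.single i 1 : Fin g → R) := by
      ext j
      simp [Pi.single_apply]
    conv_lhs => rw [h1]
    rw [map_sum, map_sum, map_sum]
    apply Finset.sum_congr rfl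
    intro i _
    rw [map_smul, map_smul, ← ha i, ← Ideal.Quotient.mkₐ_eq_mk R, ← map_smul]
  have hrel : ∀ j : Fin r, ∃ b : A, ∑ i, β (Pi.single j 1) i • a i =
      algebraMap R A p ^ (k + 1) * b := by
    intro j
    have h1 : ψ (π (β (Pi.single j 1))) = 0 := by
      have h2 : π (β (Pi.single j 1)) = 0 := (β' (Pi.single j 1)).2
      rw [h2, map_zero]
    rw [hψπ, Ideal.Quotient.eq_zero_iff_mem, Ideal.mem_span_singleton] at h1
    obtain ⟨b, hb⟩ := h1
    exact ⟨b, hb⟩
  choose b hb using hrel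
  have hone : ∃ b0 : A, ∑ i, y0 i • a i = 1 + algebraMap R A p ^ (k + 1) * b0 := by
    have h1 : ψ (π y0) = 1 := by rw [hy0, hψ]
    rw [hψπ, ← map_one (Ideal.Quotient.mk _), Ideal.Quotient.eq, Ideal.mem_span_singleton] at h1
    obtain ⟨b0, hb0⟩ := h1
    exact ⟨b0, by rw [← hb0]; ring⟩
  obtain ⟨b0, hb0⟩ := hone
  let S : Set A := (Set.range a ∪ Set.range b) ∪ {b0}
  have hS : S.Finite := ((Set.finite_range a).union (Set.finite_range b)).union
    (Set.finite_singleton b0)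
  obtain ⟨σ, hσ⟩ := hret S hS
  let a' : Fin g → Algebra.adjoin R S := fun i => ⟨a i, Algebra.subset_adjoin
    (Or.inl (Or.inl ⟨i, rfl⟩))⟩
  let b' : Fin r → Algebra.adjoin R S := fun i => ⟨b i, Algebra.subset_adjoin
    (Or.inl (Or.inr ⟨i, rfl⟩))⟩
  let b0' : Algebra.adjoin R S := ⟨b0, Algebra.subset_adjoin (Or.inr rfl)⟩
  let v : (Fin g → R) →ₗ[R] R := ∑ i, (σ (a' i)) • LinearMap.proj i
  have hv : ∀ y, v y = σ (∑ i, y i • a' i) := by
    intro y
    simp only [v, LinearMap.sum_apply, LinearMap.smul_apply, LinearMap.proj_apply, smul_eq_mul,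
      map_sum, map_smul]
    apply Finset.sum_congr rfl
    intro i _
    ring
  let w : (Fin r → R) →ₗ[R] R := ∑ j, (σ (b' j)) • LinearMap.proj j
  have hw : ∀ j, w (Pi.single j 1) = σ (b' j) := by
    intro j
    simp [w, Pi.single_apply]
  have hBv : B v = p ^ (k + 1) • w := by
    apply LinearMap.pi_ext'
    intro j
    apply LinearMap.ext_ring
    change v (β (Pi.single j 1)) = p ^ (k + 1) • w (Pi.single j 1)
    rw [hv, hw, ← map_smul]
    congr 1
    apply Subtype.ext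
    have h1 := hb j
    simp only [AddSubmonoidClass.coe_finsetSum, Subalgebra.coe_smul, a', b']
    rw [h1, Algebra.smul_def, map_pow]
  have h1 : B v ∈ (Ideal.span {p}) ^ (k + 1) • (⊤ : Submodule R ((Fin r → R) →ₗ[R] R)) ⊓ LinearMap.range B := by
    refine ⟨?_, ⟨v, rfl⟩⟩
    rw [hBv]
    exact Submodule.smul_mem_smul (Ideal.pow_mem_pow (Ideal.mem_span_singleton_self p) _) trivial
  rw [hk (k + 1) (by omega)] at h1
  have h2 : B v ∈ (Ideal.span {p}) ^ (k + 1 - k) • LinearMap.range B :=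
    Submodule.smul_mono le_rfl inf_le_right h1
  have h3 : k + 1 - k = 1 := by omega
  rw [h3, pow_one, Submodule.ideal_span_singleton_smul] at h2
  obtain ⟨z, ⟨v', rfl⟩, hz⟩ := h2
  have hz' : p • B v' = B v := hz
  let u : (Fin g → R) →ₗ[R] R := v - p • v'
  have hu : LinearMap.ker π ≤ LinearMap.ker u := by
    intro y hy
    obtain ⟨t, ht⟩ := hβ' ⟨y, hy⟩
    have h4 : β t = y := congrArg Subtype.val ht
    have h5 : B u = 0 := by rw [map_sub, map_smul, hz', sub_self]
    rw [LinearMap.mem_ker, ← h4]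
    change (B u) t = 0
    rw [h5]
    rfl
  let ρ : M →ₗ[R] R := ((LinearMap.ker π).liftQ u hu).comp
    (LinearMap.quotKerEquivOfSurjective π hπ).symm.toLinearMap
  have hρ : ∀ y, ρ (π y) = u y := by
    intro y
    have h4 : (LinearMap.quotKerEquivOfSurjective π hπ).symm (π y) =
        (LinearMap.ker π).mkQ y := by
      rw [LinearEquiv.symm_apply_eq]
      rfl
    change ((LinearMap.ker π).liftQ u hu) ((LinearMap.quotKerEquivOfSurjective π hπ).symm (π y)) = _
    rw [h4]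
    exact Submodule.liftQ_apply _ _ _
  refine ⟨ρ, ?_⟩
  rw [← hy0, hρ]
  intro hmem
  apply hm
  rw [Ideal.eq_top_iff_one]
  have h6 : v y0 = σ 1 + p ^ (k + 1) * σ b0' := by
    rw [hv, ← smul_eq_mul, ← map_smul, ← map_add]
    congr 1
    apply Subtype.ext
    simp only [AddSubmonoidClass.coe_finsetSum, Subalgebra.coe_smul, a', b0',
      Subalgebra.coe_add, Subalgebra.coe_one]
    rw [hb0, Algebra.smul_def, map_pow]
  have h7 : u y0 = v y0 - p * v' y0 := rfl
  have h8 : (1 : R) = (1 - σ 1) + (u y0) - p * (p ^ k * σ b0') + p * v' y0 := by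
    rw [h7, h6]
    ring
  rw [h8]
  exact m.add_mem (m.sub_mem (m.add_mem hσ hmem) (m.mul_mem_right _ hp)) (m.mul_mem_right _ hp)

end Pool.Agent.Helper47.SplMix
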