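import Mathlib
import Pool.Agent.Helper44.SPL.St
import Pool.Agent.Helper47.SplGlue
import Pool.Agent.Helper47.SplMain

open Polynomial

namespace Pool.Agent.Helper47.SplMix

open Pool.Agent.Helper44.SPL Pool.Agent.Helper47.Splinter

universe u

section

variable {S : Type*} [CommRing S] {L : Type u} [Field L]

lemma integralElem_iff_range (f : S →+* L) (U : Subring L) (hU : f.range = U) (z : L) :
    f.IsIntegralElem z ↔ IsIntegral U z := by
  subst hU
  constructor
  · rintro ⟨q, hq, hqz⟩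
    refine ⟨q.map f.rangeRestrict, hq.map _, ?_⟩
    rw [Polynomial.eval₂_map]
    exact hqz
  · rintro ⟨q, hq, hqz⟩
    have hl : q ∈ Polynomial.lifts f.rangeRestrict :=
      (Polynomial.lifts_iff_coeff_lifts _).mpr fun n => f.rangeRestrict_surjective _
    obtain ⟨q', hq', -, hm⟩ := Polynomial.lifts_and_natDegree_eq_and_monic hl hq
    refine ⟨q', hm, ?_⟩
    rw [← hq', Polynomial.eval₂_map] at hqz
    exact hqz

lemma mem_icl_iff (s : Set L) (z : L) : z ∈ icl s ↔ IsIntegral (Subring.closure s) z := Iff.rfl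

lemma icl_mono {s t : Set L} (h : s ⊆ icl t) : icl s ≤ icl t := by
  intro z hz
  rw [mem_icl_iff] at hz
  have h1 : Subring.closure s ≤ icl t := Subring.closure_le.mpr h
  have h2 : IsIntegral (icl t) z := by
    obtain ⟨q, hq, hqz⟩ := hz
    refine ⟨q.map (Subring.inclusion h1), hq.map _, ?_⟩
    rw [Polynomial.eval₂_map]
    exact hqz
  have h3 : IsIntegral (integralClosure (Subring.closure t) L) z := h2
  exact isIntegral_trans (R := Subring.closure t) (A := integralClosure (Subring.closure t) L) z h3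

lemma subset_icl (s : Set L) : s ⊆ icl s := by
  intro z hz
  rw [SetLike.mem_coe, mem_icl_iff]
  exact isIntegral_algebraMap (x := (⟨z, Subring.subset_closure hz⟩ : Subring.closure s))

lemma icl_IC (s : Set L) : IC (icl s) :=
  le_antisymm (icl_mono (le_refl _)) (subset_icl _)

end

variable {R : Type u} [CommRing R] {L : Type u} [Field L] [Algebra R L]

/-- The image of the base ring. -/
def im (R : Type u) [CommRing R] (L : Type u) [Field L] [Algebra R L] : Subring L :=
  (algebraMap R L).range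

lemma algebraMap_mem_im (r : R) : algebraMap R L r ∈ im R L := ⟨r, rfl⟩

lemma closure_im (x : L) : (aeval x : R[X] →ₐ[R] L).toRingHom.range =
    Subring.closure ((im R L : Set L) ∪ {x}) := by
  apply le_antisymm
  · rintro _ ⟨f, rfl⟩
    change aeval x f ∈ _
    rw [Polynomial.aeval_eq_sum_range]
    apply sum_mem
    intro i _
    rw [Algebra.smul_def]
    have h1 : x ∈ Subring.closure ((im R L : Set L) ∪ {x}) :=
      Subring.subset_closure (Or.inr rfl)
    exact mul_mem (Subring.subset_closure (Or.inl (algebraMap_mem_im _))) (pow_mem h1 i)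
  · rw [Subring.closure_le]
    rintro z (⟨r, rfl⟩ | hz)
    · exact ⟨C r, by simp⟩
    · rw [Set.mem_singleton_iff] at hz
      subst hz
      exact ⟨X, by simp⟩

lemma mem_AI_iff_icl (x z : L) : z ∈ AI R x ↔ z ∈ icl ((im R L : Set L) ∪ {x}) := by
  rw [mem_icl_iff]
  exact integralElem_iff_range _ _ (closure_im x) z

lemma isIntegral_iff_icl (z : L) : IsIntegral R z ↔ z ∈ icl (im R L : Set L) := by
  rw [mem_icl_iff]
  exact integralElem_iff_range (algebraMap R L) _ (Subring.closure_eq (im R L)).symm z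

/-- The elements integral over `R[x, x⁻¹]`. -/
noncomputable def BI (R : Type u) [CommRing R] {L : Type u} [Field L] [Algebra R L] (x : L) : Subring L :=
  icl ((im R L : Set L) ∪ {x, x⁻¹})

lemma AI_sub_BI {x z : L} (h : z ∈ AI R x) : z ∈ BI R x := by
  rw [mem_AI_iff_icl] at h
  refine icl_mono ?_ h
  rintro w (hw | hw)
  · exact subset_icl _ (Or.inl hw)
  · exact subset_icl _ (Or.inr (Or.inl hw))

lemma AI_inv_sub_BI {x z : L} (h : z ∈ AI R x⁻¹) : z ∈ BI R x := by
  rw [mem_AI_iff_icl] at h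
  refine icl_mono ?_ h
  rintro w (hw | hw)
  · exact subset_icl _ (Or.inl hw)
  · exact subset_icl _ (Or.inr (Or.inr hw))

lemma algebraMap_mem_BI (x : L) (r : R) : algebraMap R L r ∈ BI R x :=
  subset_icl _ (Or.inl (algebraMap_mem_im r))

lemma self_mem_BI (x : L) : x ∈ BI R x := subset_icl _ (Or.inr (Or.inl rfl))

lemma inv_mem_BI (x : L) : x⁻¹ ∈ BI R x := subset_icl _ (Or.inr (Or.inr rfl))

lemma zpow_mul_mem_BI {x z : L} (h : z ∈ BI R x) (n : ℤ) : x ^ n * z ∈ BI R x := by
  apply mul_mem _ h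
  rcases Int.eq_nat_or_neg n with ⟨m, rfl | rfl⟩
  · rw [zpow_natCast]
    exact pow_mem (self_mem_BI x) _
  · rw [zpow_neg, zpow_natCast, ← inv_pow]
    exact pow_mem (inv_mem_BI x) _

/-- DAG in the form used for the assembly. -/
lemma dag_AI [IsAlgClosed L] [CharZero L] (h1 : StDAG.{u}) (p : ℕ) [Fact p.Prime] (x : L)
    (hx : Transcendental (integralClosure R L) x) (y : L) (hy : y ∈ BI R x) (N : ℕ) :
    ∃ a ∈ AI R x, ∃ b ∈ AI R x⁻¹, ∃ c ∈ BI R x, y = a + b + (p : L) ^ N * c := by
  have hx' : Transcendental (im R L) x := by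
    intro halg
    apply hx
    obtain ⟨f, hf0, hf⟩ := halg
    have hle : ∀ r : im R L, (r : L) ∈ integralClosure R L := by
      rintro ⟨_, r, rfl⟩
      exact (integralClosure R L).algebraMap_mem r
    let i : im R L →+* integralClosure R L :=
      ((im R L).subtype).codRestrict (integralClosure R L).toSubring hle
    refine ⟨f.map i, ?_, ?_⟩
    · intro h0
      apply hf0
      apply Polynomial.map_injective i _ (by rw [h0, Polynomial.map_zero])
      intro a b hab
      have h5 : ((i a : integralClosure R L) : L) = ((i b : integralClosure R L) : L) := by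
        rw [hab]
      exact Subtype.ext h5
    · rw [aeval_def, Polynomial.eval₂_map]
      exact hf
  obtain ⟨a, ha, b, hb, hc⟩ := h1 L p (im R L) x hx' y hy N
  have hp : (p : L) ^ N ≠ 0 := pow_ne_zero _ (Nat.cast_ne_zero.mpr (Fact.out : p.Prime).ne_zero)
  refine ⟨a, (mem_AI_iff_icl _ _).mpr ha, b, (mem_AI_iff_icl _ _).mpr hb, _, hc, ?_⟩
  rw [mul_div_cancel₀ _ hp]
  ring

/-- H0 in the form used for the assembly. -/
lemma h0_AI [IsAlgClosed L] [CharZero L] (h2 : StH0.{u}) (h3 : StS0.{u}) (p : ℕ) [Fact p.Prime]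
    (x : L) (hx : Transcendental (integralClosure R L) x) (N : ℕ) (a b : L) (ha : a ∈ AI R x)
    (hb : b ∈ AI R x⁻¹) (c : L) (hc : c ∈ BI R x) (hab : a - b = (p : L) ^ N * c) :
    ∃ c0 : L, IsIntegral R c0 ∧ (∃ a' ∈ AI R x, a - c0 = (p : L) ^ N * a') ∧
      (∃ b' ∈ AI R x⁻¹, b - c0 = (p : L) ^ N * b') := by
  let A : Subring L := icl (im R L : Set L)
  have hA : IC A := icl_IC _
  have hx' : Transcendental A x := by
    intro halg
    apply hx
    obtain ⟨f, hf0, hf⟩ := halg
    let i : A →+* integralClosure R L :=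
      (A.subtype).codRestrict (integralClosure R L).toSubring
        (fun z => (isIntegral_iff_icl (R := R) (z : L)).mpr z.2)
    refine ⟨f.map i, ?_, ?_⟩
    · intro h0
      apply hf0
      apply Polynomial.map_injective i _ (by rw [h0, Polynomial.map_zero])
      intro a b hab
      have h5 : ((i a : integralClosure R L) : L) = ((i b : integralClosure R L) : L) := by
        rw [hab]
      exact Subtype.ext h5
    · rw [aeval_def, Polynomial.eval₂_map]
      exact hf
  have hp : (p : L) ^ N ≠ 0 := pow_ne_zero _ (Nat.cast_ne_zero.mpr (Fact.out : p.Prime).ne_zero)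
  obtain ⟨s, hs1, hs2⟩ := h3 L A hA x hx'
  have e1 : ∀ y : L, icl ((A : Set L) ∪ {y}) = icl ((im R L : Set L) ∪ {y}) := by
    intro y
    apply le_antisymm
    · apply icl_mono
      rintro w (hw | hw)
      · exact icl_mono (fun z hz => subset_icl _ (Or.inl hz)) hw
      · exact subset_icl _ (Or.inr hw)
    · apply icl_mono
      rintro w (hw | hw)
      · exact subset_icl _ (Or.inl (subset_icl _ hw))
      · exact subset_icl _ (Or.inr hw)
  have e2 : icl ((im R L : Set L) ∪ {x, x⁻¹}) ≤ icl ((A : Set L) ∪ {x, x⁻¹}) := by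
    apply icl_mono
    rintro w (hw | hw)
    · exact subset_icl _ (Or.inl (subset_icl _ hw))
    · exact subset_icl _ (Or.inr hw)
  have ha' : a ∈ icl ((A : Set L) ∪ {x}) := by rw [e1]; exact (mem_AI_iff_icl _ _).mp ha
  have hb' : b ∈ icl ((A : Set L) ∪ {x⁻¹}) := by rw [e1]; exact (mem_AI_iff_icl _ _).mp hb
  have hpA : (p : L) ^ N ∈ A := pow_mem (natCast_mem A p) N
  have hdiv : (((⟨a, ha'⟩ : icl ((A : Set L) ∪ {x})) : L) - b) / (p : L) ^ N ∈
      icl ((A : Set L) ∪ {x, x⁻¹}) := by
    change (a - b) / (p : L) ^ N ∈ _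
    rw [hab, mul_div_cancel_left₀ _ hp]
    exact e2 hc
  obtain ⟨k1, k2⟩ := h2 L A hA x hx' s hs1 hs2 _ hpA hp ⟨a, ha'⟩ b hb' hdiv
  refine ⟨(s ⟨a, ha'⟩ : L), (isIntegral_iff_icl _).mpr (s ⟨a, ha'⟩).2,
    ⟨(a - (s ⟨a, ha'⟩ : L)) / (p : L) ^ N, ?_, ?_⟩,
    ⟨(b - (s ⟨a, ha'⟩ : L)) / (p : L) ^ N, ?_, ?_⟩⟩
  · rw [mem_AI_iff_icl, ← e1]; exact k1
  · rw [mul_div_cancel₀ _ hp]
  · rw [mem_AI_iff_icl, ← e1]; exact k2
  · rw [mul_div_cancel₀ _ hp]

end Pool.Agent.Helper47.SplMix
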