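import Mathlib
import Pool.Agent.Helper47.SplMix.Brg

open Polynomial

namespace Pool.Agent.Helper47.SplMix

open Pool.Agent.Helper44.SPL Pool.Agent.Helper47.Splinter

universe u

variable {R : Type u} [CommRing R] {L : Type u} [Field L] [Algebra R L]

/-- The specialisation map with values in the integral closure of the base. -/
lemma exists_special_int [IsAlgClosed L] (y : L) (hy : Transcendental (integralClosure R L) y) :
    ∃ ι : AI R y →ₐ[R] integralClosure R L, ι ⟨y, self_mem_AI y⟩ = 0 ∧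
      ∀ z : AI R y, IsIntegral R (z : L) → ((ι z : integralClosure R L) : L) = z := by
  obtain ⟨ι0, h0, h1⟩ := exists_special_alg (R := R) y hy
  have hi0 : ∀ z : AI R y, IsIntegral R (ι0 z) := by
    intro z
    obtain ⟨p, hp, hpz⟩ := mem_AI.mp z.2
    refine ⟨p.map constantCoeff, hp.map _, ?_⟩
    rw [Polynomial.eval₂_map]
    let e : R[X] →+* AI R y := (aeval (⟨y, self_mem_AI y⟩ : AI R y) : R[X] →ₐ[R] AI R y).toRingHom
    have he : eval₂ e z p = 0 := by
      apply Subtype.ext
      change ((AI R y).val.toRingHom (eval₂ e z p)) = 0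
      rw [Polynomial.hom_eval₂]
      have hc : (AI R y).val.toRingHom.comp e = (aeval y : R[X] →ₐ[R] L).toRingHom := by
        apply Polynomial.ringHom_ext
        · intro r
          simp [e]
        · simp [e]
      rw [hc]
      exact hpz
    have h1 : (algebraMap R L).comp constantCoeff = ι0.toRingHom.comp e := by
      apply Polynomial.ringHom_ext
      · intro r
        simp [e]
      · simp [e, h0]
    rw [h1]
    have h2 := congrArg ι0.toRingHom he
    rw [Polynomial.hom_eval₂, map_zero] at h2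
    exact h2
  refine ⟨ι0.codRestrict (integralClosure R L) hi0, ?_, ?_⟩
  · apply Subtype.ext
    exact h0
  · intro z hz
    exact h1 z hz

/-- The `R`-module of elements of `BI`. -/
noncomputable def BIM (R : Type u) [CommRing R] {L : Type u} [Field L] [Algebra R L] (x : L) :
    Submodule R L where
  carrier := (BI R x : Set L)
  add_mem' := fun ha hb => (BI R x).add_mem ha hb
  zero_mem' := (BI R x).zero_mem
  smul_mem' := fun r z hz => by
    rw [Algebra.smul_def]
    exact (BI R x).mul_mem (algebraMap_mem_BI x r) hz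

lemma mem_BIM {x z : L} : z ∈ BIM R x ↔ z ∈ BI R x := Iff.rfl

/-- The specialisation modulo `p ^ N`. -/
theorem exists_psi [IsAlgClosed L] [CharZero L] (h1 : StDAG.{u}) (h2 : StH0.{u}) (h3 : StS0.{u})
    (p : ℕ) [Fact p.Prime] (x : L) (hx : Transcendental (integralClosure R L) x)
    (hx' : Transcendental (integralClosure R L) x⁻¹) (N : ℕ) :
    ∃ ψ : BIM R x →ₗ[R] (integralClosure R L ⧸
        Ideal.span {algebraMap R (integralClosure R L) (p : R) ^ N}),
      (∀ z : BIM R x, (∃ a ∈ AI R x, ∃ b ∈ AI R x⁻¹, (z : L) = x * a + x⁻¹ * b) → ψ z = 0) ∧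
      (∀ h : (1 : L) ∈ BIM R x, ψ ⟨1, h⟩ = 1) := by
  classical
  obtain ⟨s0, h00, h01⟩ := exists_special_int (R := R) x hx
  obtain ⟨s1, h10, h11⟩ := exists_special_int (R := R) x⁻¹ hx'
  let A := integralClosure R L
  let J : Ideal A := Ideal.span {algebraMap R (integralClosure R L) (p : R) ^ N}
  -- the graph
  let G : BIM R x → A ⧸ J → Prop := fun z w => ∃ (a : AI R x) (b : AI R x⁻¹) (c : BI R x),
    (z : L) = a + b + (p : L) ^ N * c ∧ w = Ideal.Quotient.mk J (s0 a + s1 b)
  have hpow : ((p : L) ^ N) = ((algebraMap R A (p : R) ^ N : A) : L) := by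
    simp
  have hex : ∀ z : BIM R x, ∃ w, G z w := by
    intro z
    obtain ⟨a, ha, b, hb, c, hc, hz⟩ := dag_AI h1 p x hx (z : L) (mem_BIM.mp z.2) N
    exact ⟨_, ⟨a, ha⟩, ⟨b, hb⟩, ⟨c, hc⟩, hz, rfl⟩
  have huniq : ∀ (z : BIM R x) w w', G z w → G z w' → w = w' := by
    rintro z w w' ⟨a, b, c, hz, rfl⟩ ⟨a', b', c', hz', rfl⟩
    rw [Ideal.Quotient.eq, Ideal.mem_span_singleton]
    have hab : ((a - a' : AI R x) : L) - ((b' - b : AI R x⁻¹) : L) =
        (p : L) ^ N * ((c' - c : BI R x) : L) := by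
      push_cast
      have := hz.symm.trans hz'
      linear_combination this
    obtain ⟨c0, hc0, ⟨a'', ha'', e1⟩, ⟨b'', hb'', e2⟩⟩ := h0_AI h2 h3 p x hx N _ _
      (a - a').2 (b' - b).2 _ (c' - c).2 hab
    have hc0a : c0 ∈ AI R x := by
      have : c0 = ((a - a' : AI R x) : L) - ((p : L) ^ N) * a'' := by rw [← e1]; ring
      rw [this]
      exact sub_mem (a - a').2 (mul_mem (pow_mem (natCast_mem _ p) N) ha'')
    have hc0b : c0 ∈ AI R x⁻¹ := by
      have : c0 = ((b' - b : AI R x⁻¹) : L) - ((p : L) ^ N) * b'' := by rw [← e2]; ring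
      rw [this]
      exact sub_mem (b' - b).2 (mul_mem (pow_mem (natCast_mem _ p) N) hb'')
    have f1 : a - a' = ⟨c0, hc0a⟩ + (p : AI R x) ^ N * ⟨a'', ha''⟩ := by
      apply Subtype.ext
      push_cast at e1 ⊢
      linear_combination e1
    have f2 : b' - b = ⟨c0, hc0b⟩ + (p : AI R x⁻¹) ^ N * ⟨b'', hb''⟩ := by
      apply Subtype.ext
      push_cast at e2 ⊢
      linear_combination e2
    have g1 := congrArg s0 f1
    have g2 := congrArg s1 f2
    have k1 : s0 ⟨c0, hc0a⟩ = ⟨c0, hc0⟩ := Subtype.ext (h01 _ hc0)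
    have k2 : s1 ⟨c0, hc0b⟩ = ⟨c0, hc0⟩ := Subtype.ext (h11 _ hc0)
    rw [map_sub, map_add, map_mul, map_pow, map_natCast, k1] at g1
    rw [map_sub, map_add, map_mul, map_pow, map_natCast, k2] at g2
    refine ⟨s0 ⟨a'', ha''⟩ - s1 ⟨b'', hb''⟩, ?_⟩
    rw [map_natCast]
    linear_combination g1 - g2
  choose g hg using hex
  have hgu : ∀ z w, G z w → g z = w := fun z w h => huniq z _ _ (hg z) h
  let ψ : BIM R x →ₗ[R] (A ⧸ J) :=
    { toFun := g
      map_add' := by
        intro z z'
        apply hgu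
        obtain ⟨a, b, c, hz, hw⟩ := hg z
        obtain ⟨a', b', c', hz', hw'⟩ := hg z'
        refine ⟨a + a', b + b', c + c', ?_, ?_⟩
        · push_cast
          rw [hz, hz']
          ring
        · rw [hw, hw', ← (Ideal.Quotient.mk J).map_add, map_add s0, map_add s1]
          congr 1
          ring
      map_smul' := by
        intro r z
        apply hgu
        obtain ⟨a, b, c, hz, hw⟩ := hg z
        refine ⟨r • a, r • b, ⟨algebraMap R L r, algebraMap_mem_BI x r⟩ * c, ?_, ?_⟩
        · push_cast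
          rw [hz]
          simp only [Algebra.smul_def]
          ring
        · rw [hw, RingHom.id_apply, map_smul, map_smul, ← smul_add]
          rfl }
  refine ⟨ψ, ?_, ?_⟩
  · rintro z ⟨a, ha, b, hb, hz⟩
    apply hgu
    refine ⟨⟨x, self_mem_AI x⟩ * ⟨a, ha⟩, ⟨x⁻¹, self_mem_AI x⁻¹⟩ * ⟨b, hb⟩, 0, ?_, ?_⟩
    · rw [hz]
      push_cast
      ring
    · rw [map_mul, map_mul, h00, h10, zero_mul, zero_mul, add_zero, map_zero]
  · intro h
    apply hgu
    refine ⟨1, 0, 0, ?_, ?_⟩
    · push_cast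
      ring
    · rw [map_one, map_zero, add_zero, map_one]

end Pool.Agent.Helper47.SplMix
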