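import Mathlib
import Pool.Agent.Helper47.SplMix.Psi
import Pool.Agent.Helper47.SplMix.AR

open Polynomial

namespace Pool.Agent.Helper47.SplMix

open Pool.Agent.Helper44.SPL Pool.Agent.Helper47.Splinter

universe u

/-- The elements `x a + x⁻¹ b`. -/
def UU (R : Type u) [CommRing R] {L : Type u} [Field L] [Algebra R L] (x : L) :
    Submodule R L where
  carrier := {z | ∃ a ∈ AI R x, ∃ b ∈ AI R x⁻¹, z = x * a + x⁻¹ * b}
  add_mem' := by
    rintro _ _ ⟨a, ha, b, hb, rfl⟩ ⟨a', ha', b', hb', rfl⟩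
    exact ⟨a + a', add_mem ha ha', b + b', add_mem hb hb', by ring⟩
  zero_mem' := ⟨0, zero_mem _, 0, zero_mem _, by ring⟩
  smul_mem' := by
    rintro r _ ⟨a, ha, b, hb, rfl⟩
    exact ⟨r • a, Subalgebra.smul_mem _ ha r, r • b, Subalgebra.smul_mem _ hb r, by
      simp only [Algebra.smul_def]; ring⟩

lemma mem_UU {R : Type u} [CommRing R] {L : Type u} [Field L] [Algebra R L] {x z : L} :
    z ∈ UU R x ↔ ∃ a ∈ AI R x, ∃ b ∈ AI R x⁻¹, z = x * a + x⁻¹ * b := by
  constructor
  · intro h; exact h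
  · intro h; exact h

/-- Residue characteristic `p`. -/
theorem mix_core (h1 : StDAG.{u}) (h2 : StH0.{u}) (h3 : StS0.{u}) {R : Type u} [CommRing R]
    [IsNoetherianRing R] (p : ℕ) [Fact p.Prime] (m : Ideal R) (hm : m ≠ ⊤) (hpm : (p : R) ∈ m)
    {D : Type u} [CommRing D] [IsDomain D] [CharZero D] [Algebra R[X] D] [Module.Finite R[X] D]
    (hker : ∀ f : R[X], algebraMap R[X] D f = 0 → ∀ n, algebraMap R[X] D (C (f.coeff n)) = 0)
    (hret : ∀ (W : Type u) [CommRing W] [Algebra R W] [Module.Finite R W],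
      (∀ r, algebraMap R W r = 0 ↔ algebraMap R[X] D (C r) = 0) → ∃ σ : W →ₗ[R] R, 1 - σ 1 ∈ m) :
    ∃ e : R, e ∉ m ∧ ∃ φ : D →ₗ[R[X]] R[X], φ 1 = C e := by
  classical
  let L := AlgebraicClosure (FractionRing D)
  let j : D →+* L := (algebraMap (FractionRing D) L).comp (algebraMap D (FractionRing D))
  have hjinj : Function.Injective j :=
    (algebraMap (FractionRing D) L).injective.comp (IsFractionRing.injective D (FractionRing D))
  letI : Algebra R L := (j.comp ((algebraMap R[X] D).comp C)).toAlgebra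
  let x : L := j (algebraMap R[X] D X)
  have halgR : ∀ r : R, algebraMap R L r = j (algebraMap R[X] D (C r)) := fun r => rfl
  have hj : ∀ f : R[X], j (algebraMap R[X] D f) = aeval x f := by
    intro f
    have h1 : j.comp (algebraMap R[X] D) = (aeval x : R[X] →ₐ[R] L).toRingHom := by
      apply Polynomial.ringHom_ext
      · intro r
        simp [halgR]
      · simp [x]
    exact congrArg (fun g : R[X] →+* L => g f) h1
  have hxt : Transcendental (integralClosure R L) x := by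
    apply transcendental_of_ker
    intro f hf n
    rw [← hj] at hf
    have h1 : algebraMap R[X] D f = 0 := hjinj (by rw [hf, map_zero])
    rw [halgR, hker f h1 n, map_zero]
  have hxt' : Transcendental (integralClosure R L) x⁻¹ := by
    intro h
    exact hxt (IsAlgebraic.inv_iff.mp h)
  have hx : x ≠ 0 := by
    intro h
    apply hxt
    rw [h]
    exact isAlgebraic_zero
  haveI : CharZero L := charZero_of_injective_ringHom hjinj
  -- generators
  obtain ⟨s, hs⟩ := (Module.Finite.fg_top : (⊤ : Submodule R[X] D).FG)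
  have hjA : ∀ d : D, j d ∈ AI R x := by
    intro d
    rw [mem_AI]
    obtain ⟨q, hq, hqd⟩ := Algebra.IsIntegral.isIntegral (R := R[X]) d
    refine ⟨q, hq, ?_⟩
    have h1 := congrArg j hqd
    rw [Polynomial.hom_eval₂, map_zero] at h1
    have h2 : j.comp (algebraMap R[X] D) = (aeval x : R[X] →ₐ[R] L).toRingHom := by
      ext f
      · exact hj _
      · exact hj _
    rw [h2] at h1
    exact h1
  choose M hM using fun d : D => exists_pow_mul_mem hx (hjA d)
  let M0 : ℕ := s.sup M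
  have hM0 : ∀ u ∈ s, ∀ m : ℕ, M0 ≤ m → x⁻¹ ^ m * j u ∈ AI R x⁻¹ := fun u hu m hm =>
    hM u m (le_trans (Finset.le_sup (f := M) hu) hm)
  let S0 : Set L := ⋃ u ∈ s, ⋃ m ∈ Finset.range (M0 + 1), {x⁻¹ ^ m * j u}
  have hS0 : S0.Finite := by
    apply Set.Finite.biUnion (Finset.finite_toSet s)
    intro u _
    apply Set.Finite.biUnion (Finset.finite_toSet _)
    intro m _
    exact Set.finite_singleton _
  have hmemS0 : ∀ u ∈ s, ∀ m ≤ M0, x⁻¹ ^ m * j u ∈ S0 := by
    intro u hu m hm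
    simp only [S0, Set.mem_iUnion]
    exact ⟨u, hu, m, Finset.mem_range.mpr (by omega), rfl⟩
  have hspan : ∀ (d : D) (n : ℤ), x ^ n * j d ∈ Submodule.span R S0 ⊔ UU R x := by
    intro d
    apply zpow_mul_mem_of_gens j x hx hj (s : Set D) hs
    intro u hu n
    rcases lt_or_ge 0 n with hn | hn
    · apply Submodule.mem_sup_right
      obtain ⟨k, rfl⟩ : ∃ k : ℕ, n = ((k + 1 : ℕ) : ℤ) := ⟨n.toNat - 1, by omega⟩
      rw [mem_UU]
      refine ⟨x ^ k * j u, mul_mem (pow_mem (self_mem_AI x) k) (hjA u), 0, zero_mem _, ?_⟩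
      rw [zpow_natCast]
      ring
    · obtain ⟨k, rfl⟩ : ∃ k : ℕ, n = -(k : ℤ) := ⟨n.natAbs, by omega⟩
      rw [zpow_neg, zpow_natCast, ← inv_pow]
      rcases le_or_gt k M0 with hk | hk
      · exact Submodule.mem_sup_left (Submodule.subset_span (hmemS0 u hu k hk))
      · apply Submodule.mem_sup_right
        obtain ⟨k', rfl⟩ : ∃ k' : ℕ, k = k' + 1 := ⟨k - 1, by omega⟩
        rw [mem_UU]
        refine ⟨0, zero_mem _, x⁻¹ ^ k' * j u, hM0 u hu k' (by omega), ?_⟩
        ring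
  -- the module
  let E : Submodule R L := Submodule.span R {z | ∃ (n : ℤ) (d : D), z = x ^ n * j d}
  have hEmem : ∀ (n : ℤ) (d : D), x ^ n * j d ∈ E := fun n d =>
    Submodule.subset_span ⟨n, d, rfl⟩
  have hEle : E ≤ Submodule.span R S0 ⊔ UU R x := by
    rw [Submodule.span_le]
    rintro _ ⟨n, d, rfl⟩
    exact hspan d n
  have hS0E : Submodule.span R S0 ≤ E := by
    rw [Submodule.span_le]
    intro z hz
    simp only [S0, Set.mem_iUnion] at hz
    obtain ⟨u, _, k, _, rfl⟩ := hz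
    have := hEmem (-(k : ℤ)) u
    rw [zpow_neg, zpow_natCast, ← inv_pow] at this
    exact this
  have hEB : ∀ z ∈ E, z ∈ BIM R x := by
    have : E ≤ BIM R x := by
      rw [Submodule.span_le]
      rintro _ ⟨n, d, rfl⟩
      exact zpow_mul_mem_BI (AI_sub_BI (hjA d)) n
    exact this
  let V : Submodule R E := (UU R x).comap E.subtype
  let Q := E ⧸ V
  haveI : Module.Finite R (Submodule.span R S0) := Module.Finite.span_of_finite R hS0
  haveI : Module.Finite R Q := by
    apply Module.Finite.of_surjective (V.mkQ.comp (Submodule.inclusion hS0E))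
    intro q
    obtain ⟨⟨z, hz⟩, rfl⟩ := V.mkQ_surjective q
    obtain ⟨a, ha, b, hb, hab⟩ := Submodule.mem_sup.mp (hEle hz)
    refine ⟨⟨a, ha⟩, ?_⟩
    change V.mkQ ⟨a, hS0E ha⟩ = V.mkQ ⟨z, hz⟩
    rw [← sub_eq_zero, ← map_sub, Submodule.mkQ_apply, Submodule.Quotient.mk_eq_zero]
    change a - z ∈ UU R x
    have : a - z = -b := by rw [← hab]; ring
    rw [this]
    exact neg_mem hb
  have hone : (1 : L) ∈ E := by
    have := hEmem 0 1
    simpa using this
  -- the functional
  obtain ⟨ρ, hρ⟩ := exists_functional m hm (p : R) hpm (A := integralClosure R L) (by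
      intro S hS
      haveI : Module.Finite R (Algebra.adjoin R S) := by
        have h5 : (Subalgebra.toSubmodule (Algebra.adjoin R S)).FG :=
          fg_adjoin_of_finite hS (fun z _ => by
            have := z.2
            exact (isIntegral_algebraMap_iff (A := integralClosure R L) (B := L)
              Subtype.val_injective).mp this)
        exact Module.Finite.iff_fg.mpr h5
      apply hret
      intro r
      rw [← Subtype.coe_inj, ← Subtype.coe_inj]
      change algebraMap R L r = 0 ↔ _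
      rw [halgR]
      constructor
      · intro h
        exact hjinj (by rw [h, map_zero])
      · intro h
        rw [h, map_zero])
    (M := Q) (V.mkQ ⟨1, hone⟩) (by
      intro N
      obtain ⟨ψ, hψ0, hψ1⟩ := exists_psi h1 h2 h3 p x hxt hxt' N
      let ψ' : E →ₗ[R] _ := ψ.comp (Submodule.inclusion hEB)
      refine ⟨V.liftQ ψ' ?_, ?_⟩
      · intro z hz
        rw [LinearMap.mem_ker]
        exact hψ0 _ (mem_UU.mp hz)
      · rw [Submodule.mkQ_apply, Submodule.liftQ_apply]
        exact hψ1 _)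
  let c : D → ℕ → R := fun d n => ρ (V.mkQ ⟨x ^ (-(n : ℤ)) * j d, hEmem _ _⟩)
  have hc0 : ∀ d (n : ℕ), x ^ (-(n : ℤ)) * j d ∈ UU R x → c d n = 0 := by
    intro d n h
    have h5 : V.mkQ ⟨x ^ (-(n : ℤ)) * j d, hEmem _ _⟩ = 0 := by
      rw [Submodule.mkQ_apply, Submodule.Quotient.mk_eq_zero]
      exact h
    change ρ _ = 0
    rw [h5, map_zero]
  have e1 : ∀ d, ∃ N, ∀ n, N ≤ n → c d n = 0 := by
    intro d
    refine ⟨M d + 1, fun n hn => hc0 d n ?_⟩
    obtain ⟨m', rfl⟩ : ∃ m' : ℕ, n = m' + 1 := ⟨n - 1, by omega⟩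
    rw [mem_UU]
    refine ⟨0, zero_mem _, x⁻¹ ^ m' * j d, hM d m' (by omega), ?_⟩
    rw [zpow_neg, zpow_natCast, ← inv_pow]
    ring
  have e2 : ∀ d d' n, c (d + d') n = c d n + c d' n := by
    intro d d' n
    change ρ _ = ρ _ + ρ _
    rw [← map_add, ← map_add]
    congr 2
    apply Subtype.ext
    change x ^ (-(n : ℤ)) * j (d + d') = x ^ (-(n : ℤ)) * j d + x ^ (-(n : ℤ)) * j d'
    rw [map_add, mul_add]
  have e3 : ∀ r d n, c (algebraMap R[X] D (C r) * d) n = r * c d n := by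
    intro r d n
    have k1 : (⟨x ^ (-(n : ℤ)) * j (algebraMap R[X] D (C r) * d), hEmem _ _⟩ : E) =
        r • ⟨x ^ (-(n : ℤ)) * j d, hEmem _ _⟩ := by
      apply Subtype.ext
      change x ^ (-(n : ℤ)) * j (algebraMap R[X] D (C r) * d) = r • (x ^ (-(n : ℤ)) * j d)
      rw [map_mul, ← halgR, Algebra.smul_def]
      ring
    change ρ (V.mkQ _) = r * ρ (V.mkQ _)
    rw [k1, map_smul, map_smul, smul_eq_mul]
  have e4 : ∀ d, c (algebraMap R[X] D X * d) 0 = 0 := by
    intro d
    apply hc0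
    rw [mem_UU]
    refine ⟨j d, hjA d, 0, zero_mem _, ?_⟩
    simp [x]
  have e5 : ∀ d n, c (algebraMap R[X] D X * d) (n + 1) = c d n := by
    intro d n
    change ρ _ = ρ _
    congr 2
    apply Subtype.ext
    change x ^ (-((n + 1 : ℕ) : ℤ)) * j (algebraMap R[X] D X * d) = x ^ (-(n : ℤ)) * j d
    rw [map_mul, zpow_neg, zpow_neg, zpow_natCast, zpow_natCast, pow_succ, mul_inv]
    change (x ^ n)⁻¹ * x⁻¹ * (x * j d) = (x ^ n)⁻¹ * j d
    rw [mul_assoc, inv_mul_cancel_left₀ hx]
  obtain ⟨φ, hφ⟩ := exists_linear_of_coeff (R := R) (D := D) c e1 e2 e3 e4 e5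
  refine ⟨ρ (V.mkQ ⟨1, hone⟩), hρ, φ, ?_⟩
  ext n
  rw [hφ, coeff_C]
  split_ifs with hn
  · subst hn
    change ρ _ = ρ _
    congr 2
    apply Subtype.ext
    change x ^ (-((0 : ℕ) : ℤ)) * j 1 = 1
    simp
  · apply hc0
    obtain ⟨m', rfl⟩ : ∃ m' : ℕ, n = m' + 1 := ⟨n - 1, by omega⟩
    rw [mem_UU]
    refine ⟨0, zero_mem _, x⁻¹ ^ m', pow_mem (self_mem_AI _) _, ?_⟩
    rw [zpow_neg, zpow_natCast, ← inv_pow, map_one]
    ring

end Pool.Agent.Helper47.SplMix
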