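import Mathlib

open Polynomial

namespace Pool.Agent.Helper47.SplMix

universe u

/-- A commutative ring `A` is a splinter if it is Noetherian and every finite ring map `A → T`
that is surjective on prime spectra splits as a map of `A`-modules. -/
def IsSpl (A : Type u) [CommRing A] : Prop :=
  IsNoetherianRing A ∧
    ∀ (T : Type u) [CommRing T] [Algebra A T], Module.Finite A T →
      Function.Surjective (PrimeSpectrum.comap (algebraMap A T)) →
        ∃ ρ : T →ₗ[A] A, ρ 1 = 1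

/-- Finite algebras whose kernel is a minimal prime `P` have a retraction up to an element
congruent to `1` modulo `P`. -/
lemma retract_minimal {R : Type u} [CommRing R] (h : IsSpl R) (P : Ideal R)
    (hP : P ∈ minimalPrimes R) (W : Type u) [CommRing W] [Algebra R W] [Module.Finite R W]
    (hker : ∀ r, algebraMap R W r = 0 ↔ r ∈ P) :
    ∃ σ : W →ₗ[R] R, 1 - σ 1 ∈ P := by
  classical
  obtain ⟨hN, hsplit⟩ := h
  haveI := hN
  haveI hPp : P.IsPrime := hP.1.1
  have hfin : (minimalPrimes R).Finite := minimalPrimes.finite_of_isNoetherianRing R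
  let 𝔞 : Ideal R := (hfin.toFinset.filter (fun q => q ≠ P)).inf id
  have h𝔞le : ∀ q ∈ minimalPrimes R, q ≠ P → 𝔞 ≤ q := by
    intro q hq hne
    exact Finset.inf_le (f := id) (Finset.mem_filter.mpr ⟨hfin.mem_toFinset.mpr hq, hne⟩)
  have h𝔞 : ¬ 𝔞 ≤ P := by
    intro hle
    obtain ⟨q, hq, hqP⟩ := (Ideal.IsPrime.inf_le' hPp).mp hle
    rw [Finset.mem_filter, hfin.mem_toFinset] at hq
    have hqP' : q ≤ P := hqP
    have : P ≤ q := hP.2 hq.1.1 hqP'
    exact hq.2 (le_antisymm hqP' this)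
  have hsurj : Function.Surjective (PrimeSpectrum.comap (algebraMap R (W × (R ⧸ 𝔞)))) := by
    intro q
    haveI := q.2
    obtain ⟨q', hq', hq'q⟩ := Ideal.exists_minimalPrimes_le (I := ⊥) (J := q.asIdeal) bot_le
    by_cases hne : q' = P
    · obtain ⟨Q1, -, hQ1p, hQ1⟩ := Ideal.exists_ideal_over_prime_of_isIntegral
        (R := R) (S := W) q.asIdeal ⊥ (by
          intro r hr
          have hr' : algebraMap R W r = 0 := by simpa using hr
          rw [hker, ← hne] at hr'
          exact hq'q hr')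
      refine ⟨PrimeSpectrum.comap (RingHom.fst W (R ⧸ 𝔞)) ⟨Q1, hQ1p⟩, ?_⟩
      apply PrimeSpectrum.ext
      ext r
      rw [← hQ1]
      rfl
    · obtain ⟨Q1, -, hQ1p, hQ1⟩ := Ideal.exists_ideal_over_prime_of_isIntegral
        (R := R) (S := R ⧸ 𝔞) q.asIdeal ⊥ (by
          intro r hr
          have hr' : r ∈ 𝔞 := by
            have : algebraMap R (R ⧸ 𝔞) r = 0 := by simpa using hr
            exact Ideal.Quotient.eq_zero_iff_mem.mp this
          exact hq'q (h𝔞le q' hq' hne hr'))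
      refine ⟨PrimeSpectrum.comap (RingHom.snd W (R ⧸ 𝔞)) ⟨Q1, hQ1p⟩, ?_⟩
      apply PrimeSpectrum.ext
      ext r
      rw [← hQ1]
      rfl
  obtain ⟨ρ', hρ'⟩ := hsplit (W × (R ⧸ 𝔞)) inferInstance hsurj
  let ρ : W →ₗ[R] R := ρ'.comp (LinearMap.inl R W (R ⧸ 𝔞))
  refine ⟨ρ, ?_⟩
  have h1 : (1 : R) - ρ 1 = ρ' (0, 1) := by
    rw [← hρ']
    change ρ' 1 - ρ' (1, 0) = _
    rw [← map_sub]
    congr 1
    ext <;> simp
  rw [h1]
  obtain ⟨a, ha, haP⟩ := SetLike.not_le_iff_exists.mp h𝔞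
  have h2 : a * ρ' (0, 1) = 0 := by
    rw [← smul_eq_mul, ← map_smul]
    have h3 : a • ((0, 1) : W × (R ⧸ 𝔞)) = 0 := by
      apply Prod.ext
      · simp
      · change a • (1 : R ⧸ 𝔞) = 0
        rw [Algebra.smul_def, mul_one]
        exact Ideal.Quotient.eq_zero_iff_mem.mpr ha
    rw [h3, map_zero]
  have h4 : a * ρ' (0, 1) ∈ P := by rw [h2]; exact P.zero_mem
  exact (hPp.mem_or_mem h4).resolve_left haP

/-- The quotient of a splinter by a minimal prime is integrally closed. -/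
lemma quotient_isIntegrallyClosed {R : Type u} [CommRing R] (h : IsSpl R) (P : Ideal R)
    (hP : P ∈ minimalPrimes R) : IsIntegrallyClosed (R ⧸ P) := by
  haveI hPp : P.IsPrime := hP.1.1
  rw [isIntegrallyClosed_iff (FractionRing (R ⧸ P))]
  intro x hx
  let K := FractionRing (R ⧸ P)
  let W : Subalgebra (R ⧸ P) K := Algebra.adjoin (R ⧸ P) {x}
  have hWfg : (Subalgebra.toSubmodule W).FG := hx.fg_adjoin_singleton
  haveI hWfin : Module.Finite (R ⧸ P) W := Module.Finite.iff_fg.mpr hWfg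
  haveI : Module.Finite R (R ⧸ P) := inferInstance
  haveI : Module.Finite R W := Module.Finite.trans (R ⧸ P) W
  have hinj : Function.Injective (algebraMap (R ⧸ P) W) :=
    FaithfulSMul.algebraMap_injective (R ⧸ P) W
  have hker : ∀ r, algebraMap R W r = 0 ↔ r ∈ P := by
    intro r
    rw [IsScalarTower.algebraMap_apply R (R ⧸ P) W, map_eq_zero_iff _ hinj]
    exact Ideal.Quotient.eq_zero_iff_mem
  obtain ⟨σ, hσ⟩ := retract_minimal h P hP W hker
  let τ : W →ₗ[R] (R ⧸ P) := (Algebra.linearMap R (R ⧸ P)).comp σ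
  have hτs : ∀ (r : R ⧸ P) (w : W), τ (r • w) = r * τ w := by
    intro r w
    obtain ⟨r, rfl⟩ := Ideal.Quotient.mk_surjective r
    have h1 : (Ideal.Quotient.mk P r) • w = r • w := by
      rw [← Ideal.Quotient.algebraMap_eq, algebraMap_smul]
    rw [h1, map_smul, Algebra.smul_def]
    rfl
  have hτ1 : τ 1 = 1 := by
    change Ideal.Quotient.mk P (σ 1) = 1
    have : Ideal.Quotient.mk P (1 - σ 1) = 0 := Ideal.Quotient.eq_zero_iff_mem.mpr hσ
    rw [map_sub, map_one, sub_eq_zero] at this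
    exact this.symm
  let w : W := ⟨x, Algebra.subset_adjoin rfl⟩
  obtain ⟨⟨a, b⟩, hab⟩ := IsLocalization.surj (nonZeroDivisors (R ⧸ P)) x
  have hbne : (b : R ⧸ P) ≠ 0 := nonZeroDivisors.ne_zero b.2
  have h2 : (b : R ⧸ P) • w = a • (1 : W) := by
    apply Subtype.ext
    change (b : R ⧸ P) • x = a • (1 : K)
    rw [Algebra.smul_def, Algebra.smul_def, mul_one, mul_comm]
    exact hab
  have h3 : (b : R ⧸ P) * τ w = a := by
    rw [← hτs, h2, hτs, hτ1, mul_one]
  refine ⟨τ w, ?_⟩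
  have hb' : algebraMap (R ⧸ P) K b ≠ 0 := by
    rw [Ne, IsFractionRing.to_map_eq_zero_iff]
    exact hbne
  apply mul_left_cancel₀ hb'
  rw [← map_mul, h3]
  rw [mul_comm]
  exact hab.symm

end Pool.Agent.Helper47.SplMix
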