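import Mathlib
import Pool.Agent.Helper47.SplMix.Ret

open Polynomial

namespace Pool.Agent.Helper47.SplMix

universe u

/-- The trace of a finite extension of domains with integrally closed base. -/
lemma exists_trace {A : Type u} [CommRing A] [IsDomain A] [IsIntegrallyClosed A] {D : Type u}
    [CommRing D] [IsDomain D] [Algebra A D] [Module.Finite A D]
    (hinj : Function.Injective (algebraMap A D)) :
    ∃ n : ℕ, n ≠ 0 ∧ ∃ τ : D →ₗ[A] A, τ 1 = (n : A) := by
  classical
  haveI : FaithfulSMul A D := (faithfulSMul_iff_algebraMap_injective A D).mpr hinj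
  let K := FractionRing A
  let L := FractionRing D
  haveI : FaithfulSMul A L := by
    rw [faithfulSMul_iff_algebraMap_injective, IsScalarTower.algebraMap_eq A D L]
    exact (IsFractionRing.injective D L).comp hinj
  letI : Algebra K L := FractionRing.liftAlgebra A L
  haveI : IsScalarTower A K L := FractionRing.isScalarTower_liftAlgebra A L
  obtain ⟨s, hs⟩ := (Module.Finite.fg_top : (⊤ : Submodule A D).FG)
  let S : Set L := (algebraMap D L) '' (s : Set D)
  have hSfin : S.Finite := (Finset.finite_toSet s).image _
  haveI : Finite S := hSfin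
  let F : IntermediateField K L := IntermediateField.adjoin K S
  haveI : FiniteDimensional K F := by
    apply IntermediateField.finiteDimensional_adjoin
    rintro x ⟨d, _, rfl⟩
    have h1 : IsIntegral A d := Algebra.IsIntegral.isIntegral d
    have h2 : IsIntegral A (algebraMap D L d) := h1.algebraMap
    exact h2.tower_top
  have hmem : ∀ d : D, algebraMap D L d ∈ F := by
    intro d
    have hd : d ∈ Submodule.span A (s : Set D) := by rw [hs]; trivial
    induction hd using Submodule.span_induction with
    | mem u hu => exact IntermediateField.subset_adjoin K S ⟨u, hu, rfl⟩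
    | zero => rw [map_zero]; exact zero_mem _
    | add a b _ _ ha hb => rw [map_add]; exact add_mem ha hb
    | smul r a _ ha =>
      rw [Algebra.smul_def, map_mul]
      apply mul_mem _ ha
      rw [← IsScalarTower.algebraMap_apply A D L, IsScalarTower.algebraMap_apply A K L]
      exact F.algebraMap_mem _
  let j : D →ₗ[A] F :=
    { toFun := fun d => ⟨algebraMap D L d, hmem d⟩
      map_add' := fun a b => Subtype.ext (map_add (algebraMap D L) a b)
      map_smul' := fun r a => Subtype.ext (by
        change algebraMap D L (r • a) = r • algebraMap D L a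
        rw [Algebra.smul_def, map_mul, ← IsScalarTower.algebraMap_apply A D L,
          Algebra.smul_def]) }
  haveI : IsScalarTower A F L := IsScalarTower.of_algebraMap_eq fun r => by
    rw [IsScalarTower.algebraMap_apply A K L, IsScalarTower.algebraMap_apply A K F]
    rfl
  have hint : ∀ d, IsIntegral A (Algebra.trace K F (j d)) := by
    intro d
    apply Algebra.isIntegral_trace
    have h1 : IsIntegral A d := Algebra.IsIntegral.isIntegral d
    have h2 : IsIntegral A (algebraMap D L d) := h1.algebraMap
    have h3 : IsIntegral A (algebraMap F L (j d)) := h2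
    exact (isIntegral_algebraMap_iff (algebraMap F L).injective).mp h3
  have hex : ∀ d, ∃ a : A, algebraMap A K a = Algebra.trace K F (j d) := fun d =>
    IsIntegrallyClosed.isIntegral_iff.mp (hint d)
  choose g hg using hex
  have hinjK : Function.Injective (algebraMap A K) := IsFractionRing.injective A K
  let τ : D →ₗ[A] A :=
    { toFun := g
      map_add' := by
        intro a b
        apply hinjK
        rw [hg, map_add, map_add, map_add, hg, hg]
      map_smul' := by
        intro r a
        apply hinjK
        rw [hg, map_smul, RingHom.id_apply, smul_eq_mul, map_mul, hg]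
        have h1 : r • j a = (algebraMap A K r) • j a := by
          rw [algebraMap_smul]
        rw [h1, map_smul, smul_eq_mul] }
  refine ⟨Module.finrank K F, Module.finrank_pos.ne', τ, ?_⟩
  apply hinjK
  change algebraMap A K (g 1) = _
  rw [hg]
  have h1 : j 1 = algebraMap K F 1 := by
    apply Subtype.ext
    change algebraMap D L 1 = algebraMap K L 1
    rw [map_one, map_one]
  rw [h1, Algebra.trace_algebraMap]
  simp

/-- Residue characteristic zero: the trace. -/
theorem trace_case {R : Type u} [CommRing R] (h : IsSpl R) (P : Ideal R)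
    (hP : P ∈ minimalPrimes R) {D : Type u} [CommRing D] [IsDomain D] [Algebra R[X] D]
    [Module.Finite R[X] D]
    (hker : ∀ f : R[X], algebraMap R[X] D f = 0 ↔ f ∈ P.map (C : R →+* R[X])) :
    ∃ n : ℕ, n ≠ 0 ∧ ∃ e : R, 1 - e ∈ P ∧ ∃ φ : D →ₗ[R[X]] R[X], φ 1 = C ((n : R) * e) := by
  haveI hPp : P.IsPrime := hP.1.1
  haveI : IsIntegrallyClosed (R ⧸ P) := quotient_isIntegrallyClosed h P hP
  let q : R[X] →+* (R ⧸ P)[X] := mapRingHom (Ideal.Quotient.mk P)
  have hq : Function.Surjective q := Polynomial.map_surjective _ Ideal.Quotient.mk_surjective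
  have hkq : ∀ f, q f = 0 ↔ f ∈ P.map (C : R →+* R[X]) := by
    intro f
    rw [Ideal.mem_map_C_iff, Polynomial.ext_iff]
    apply forall_congr'
    intro n
    rw [coe_mapRingHom, coeff_map, coeff_zero]
    exact Ideal.Quotient.eq_zero_iff_mem
  let e' : (R ⧸ P)[X] →+* D := eval₂RingHom (Ideal.Quotient.lift P ((algebraMap R[X] D).comp C)
    (fun a ha => by
      rw [RingHom.comp_apply, hker]
      exact Ideal.mem_map_of_mem C ha)) (algebraMap R[X] D X)
  have hcomp : ∀ f, e' (q f) = algebraMap R[X] D f := by
    intro f
    have h1 : e'.comp q = algebraMap R[X] D := by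
      apply Polynomial.ringHom_ext
      · intro r
        simp [e', q]
      · simp [e', q]
    exact congrArg (fun g : R[X] →+* D => g f) h1
  have hinj : Function.Injective e' := by
    rw [injective_iff_map_eq_zero]
    intro a ha
    obtain ⟨f, rfl⟩ := hq a
    rw [hcomp, hker, ← hkq] at ha
    exact ha
  letI : Algebra (R ⧸ P)[X] D := e'.toAlgebra
  haveI : Module.Finite (R ⧸ P)[X] D := by
    obtain ⟨s, hs⟩ := (Module.Finite.fg_top : (⊤ : Submodule R[X] D).FG)
    refine ⟨⟨s, ?_⟩⟩
    rw [eq_top_iff]
    intro d _
    have hd : d ∈ Submodule.span R[X] (s : Set D) := by rw [hs]; trivial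
    induction hd using Submodule.span_induction with
    | mem u hu => exact Submodule.subset_span hu
    | zero => exact zero_mem _
    | add a b _ _ ha hb => exact add_mem (ha trivial) (hb trivial)
    | smul r a _ ha =>
      have h1 : r • a = q r • a := by
        rw [Algebra.smul_def, Algebra.smul_def]
        change _ = e' (q r) * a
        rw [hcomp]
      rw [h1]
      exact Submodule.smul_mem _ _ (ha trivial)
  obtain ⟨n, hn, τ, hτ⟩ := exists_trace (A := (R ⧸ P)[X]) (D := D) hinj
  obtain ⟨σ, hσ⟩ := retract_minimal h P hP (R ⧸ P) (fun r => by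
    rw [Ideal.Quotient.algebraMap_eq]
    exact Ideal.Quotient.eq_zero_iff_mem)
  have hmain : ∃ ψ : (R ⧸ P)[X] → R[X], ∀ f i, (ψ f).coeff i = σ (f.coeff i) := by
    refine ⟨fun f => ∑ i ∈ Finset.range (f.natDegree + 1), monomial i (σ (f.coeff i)), ?_⟩
    intro f i
    rw [Polynomial.finsetSum_coeff]
    simp only [coeff_monomial]
    rw [Finset.sum_ite_eq']
    split_ifs with hi
    · rfl
    · rw [Finset.mem_range, not_lt] at hi
      rw [Polynomial.coeff_eq_zero_of_natDegree_lt (by omega), map_zero]
  obtain ⟨ψ, hψ⟩ := hmain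
  have hψadd : ∀ a b, ψ (a + b) = ψ a + ψ b := by
    intro a b
    ext i
    rw [hψ, coeff_add, coeff_add, hψ, hψ, map_add]
  have hψmul : ∀ (f : R[X]) a, ψ (q f * a) = f * ψ a := by
    intro f a
    ext i
    rw [hψ, coeff_mul, coeff_mul, map_sum]
    apply Finset.sum_congr rfl
    intro x _
    rw [hψ, coe_mapRingHom, coeff_map]
    have h1 : Ideal.Quotient.mk P (f.coeff x.1) * a.coeff x.2 = f.coeff x.1 • a.coeff x.2 := by
      rw [Algebra.smul_def]
      rfl
    rw [h1, map_smul, smul_eq_mul]
  let φ : D →ₗ[R[X]] R[X] :=
    { toFun := fun d => ψ (τ d)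
      map_add' := by
        intro a b
        rw [map_add, hψadd]
      map_smul' := by
        intro f a
        have h1 : f • a = q f • a := by
          rw [Algebra.smul_def, Algebra.smul_def]
          change _ = e' (q f) * a
          rw [hcomp]
        rw [h1, map_smul, smul_eq_mul, hψmul, RingHom.id_apply, smul_eq_mul] }
  refine ⟨n, hn, σ 1, hσ, φ, ?_⟩
  change ψ (τ 1) = _
  rw [hτ]
  ext i
  rw [hψ, coeff_C]
  have h1 : (n : (R ⧸ P)[X]) = C (n : R ⧸ P) := by simp
  rw [h1, coeff_C]
  split_ifs with hi
  · have h2 : (n : R ⧸ P) = (n : R) • (1 : R ⧸ P) := by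
      rw [Algebra.smul_def, mul_one, map_natCast]
    rw [h2, map_smul, smul_eq_mul]
  · rw [map_zero]

end Pool.Agent.Helper47.SplMix
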