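import Mathlib
import Pool.Agent.Helper44.SPL.St4
import Pool.Agent.Helper47.SplMix.Core
import Pool.Agent.Helper47.SplMix.Eq
import Pool.Agent.Helper47.SplMix.Tr

open Polynomial

namespace Pool.Agent.Helper47.SplMix

open Pool.Agent.Helper44.SPL

universe u

/-- The three cases at a maximal ideal. -/
theorem local_case (h1 : StDAG.{u}) (h2 : StH0.{u}) (h3 : StS0.{u}) (R : Type u) [CommRing R]
    (h : IsSpl R) (T : Type u) [CommRing T] [Algebra R[X] T] (hT : Module.Finite R[X] T)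
    (hs : Function.Surjective (PrimeSpectrum.comap (algebraMap R[X] T)))
    (m : Ideal R) (hm : m.IsMaximal) :
    ∃ e : R, e ∉ m ∧ ∃ φ : T →ₗ[R[X]] R[X], φ 1 = C e := by
  classical
  haveI := h.1
  haveI := hT
  haveI hmp : m.IsPrime := hm.isPrime
  obtain ⟨P, hP, hPm⟩ := Ideal.exists_minimalPrimes_le (I := ⊥) (J := m) bot_le
  haveI hPp : P.IsPrime := hP.1.1
  haveI hPC : (P.map (C : R →+* R[X])).IsPrime := Ideal.isPrime_map_C_of_isPrime
  obtain ⟨Q, hQ⟩ := hs ⟨P.map C, hPC⟩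
  have hQ' : Q.asIdeal.comap (algebraMap R[X] T) = P.map C := by
    have := congrArg PrimeSpectrum.asIdeal hQ
    simpa using this
  haveI : Q.asIdeal.IsPrime := Q.2
  let D := T ⧸ Q.asIdeal
  haveI : IsDomain D := Ideal.Quotient.isDomain _
  haveI : Module.Finite R[X] D := Module.Finite.of_surjective
    (Ideal.Quotient.mkₐ R[X] Q.asIdeal).toLinearMap Ideal.Quotient.mk_surjective
  have hzero : ∀ f : R[X], algebraMap R[X] D f = 0 ↔ f ∈ P.map (C : R →+* R[X]) := by
    intro f
    rw [← hQ', Ideal.mem_comap]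
    exact Ideal.Quotient.eq_zero_iff_mem
  have hker : ∀ f : R[X], algebraMap R[X] D f = 0 →
      ∀ n, algebraMap R[X] D (C (f.coeff n)) = 0 := by
    intro f hf n
    rw [hzero] at hf ⊢
    exact Ideal.mem_map_of_mem C (Ideal.mem_map_C_iff.mp hf n)
  have hC : ∀ r : R, algebraMap R[X] D (C r) = 0 ↔ r ∈ P := by
    intro r
    rw [hzero]
    constructor
    · intro hr
      have := Ideal.mem_map_C_iff.mp hr 0
      simpa using this
    · intro hr
      exact Ideal.mem_map_of_mem C hr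
  have hret : ∀ (W : Type u) [CommRing W] [Algebra R W] [Module.Finite R W],
      (∀ r, algebraMap R W r = 0 ↔ algebraMap R[X] D (C r) = 0) →
        ∃ σ : W →ₗ[R] R, 1 - σ 1 ∈ m := by
    intro W _ _ _ hW
    obtain ⟨σ, hσ⟩ := retract_minimal h P hP W (fun r => by rw [hW, hC])
    exact ⟨σ, hPm hσ⟩
  -- it suffices to work with `D`
  suffices hD : ∃ e : R, e ∉ m ∧ ∃ φ : D →ₗ[R[X]] R[X], φ 1 = C e by
    obtain ⟨e, he, φ, hφ⟩ := hD
    refine ⟨e, he, φ.comp (Ideal.Quotient.mkₐ R[X] Q.asIdeal).toLinearMap, ?_⟩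
    rw [LinearMap.comp_apply]
    have : (Ideal.Quotient.mkₐ R[X] Q.asIdeal).toLinearMap 1 = 1 := by simp
    rw [this, hφ]
  have hnotin : ∀ a : R, 1 - a ∈ m → a ∉ m := by
    intro a ha ha'
    apply hm.ne_top
    rw [Ideal.eq_top_iff_one]
    have : (1 : R) = (1 - a) + a := by ring
    rw [this]
    exact m.add_mem ha ha'
  rcases CharP.exists' D with hchar | ⟨q, hq, hqD⟩
  · -- characteristic zero
    haveI := hchar
    by_cases hres : ∃ p : ℕ, p.Prime ∧ (p : R) ∈ m
    · obtain ⟨p, hp, hpm⟩ := hres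
      haveI : Fact p.Prime := ⟨hp⟩
      exact mix_core h1 h2 h3 p m hm.ne_top hpm hker hret
    · obtain ⟨n, hn, e, he, φ, hφ⟩ := trace_case h P hP hzero
      refine ⟨(n : R) * e, ?_, φ, hφ⟩
      intro hmem
      rcases hmp.mem_or_mem hmem with hnm | hem
      · apply hres
        clear hφ φ hmem
        induction n using Nat.recOnMul with
        | zero => exact absurd rfl hn
        | one =>
          exfalso
          apply hm.ne_top
          rw [Ideal.eq_top_iff_one]
          simpa using hnm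
        | prime p hp => exact ⟨p, hp, hnm⟩
        | mul a b iha ihb =>
          have ha0 : a ≠ 0 := fun h => hn (by rw [h, zero_mul])
          have hb0 : b ≠ 0 := fun h => hn (by rw [h, mul_zero])
          rw [Nat.cast_mul] at hnm
          rcases hmp.mem_or_mem hnm with h5 | h5
          · exact iha ha0 h5
          · exact ihb hb0 h5
      · exact hnotin e (hPm he) hem
  · -- equal characteristic
    haveI := hq
    haveI := hqD
    obtain ⟨W, _, _, _, hWfin, hWker, hW⟩ := equal_core q (D := D) (CharP.cast_eq_zero D q) hker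
    haveI := hWfin
    obtain ⟨σ, hσ⟩ := hret W hWker
    obtain ⟨φ, hφ⟩ := hW σ
    exact ⟨σ 1, hnotin _ hσ, φ, hφ⟩

/-- **Main theorem**, from DAG, H0 and S0. -/
theorem main_of (h1 : StDAG.{u}) (h2 : StH0.{u}) (h3 : StS0.{u}) : StMAIN.{u} := by
  intro R _ h
  haveI := h.1
  refine ⟨inferInstance, ?_⟩
  intro T _ _ hT hs
  let J : Ideal R :=
    { carrier := {e | ∃ φ : T →ₗ[R[X]] R[X], φ 1 = C e}
      add_mem' := by
        rintro a b ⟨φ, hφ⟩ ⟨ψ, hψ⟩
        exact ⟨φ + ψ, by rw [LinearMap.add_apply, hφ, hψ, C_add]⟩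
      zero_mem' := ⟨0, by simp⟩
      smul_mem' := by
        rintro a b ⟨φ, hφ⟩
        exact ⟨(C a : R[X]) • φ, by rw [LinearMap.smul_apply, hφ, smul_eq_mul, smul_eq_mul, C_mul]⟩ }
  have hJ : J = ⊤ := by
    by_contra hne
    obtain ⟨m, hm, hJm⟩ := Ideal.exists_le_maximal J hne
    obtain ⟨e, he, φ, hφ⟩ := local_case h1 h2 h3 R h T hT hs m hm
    exact he (hJm ⟨φ, hφ⟩)
  have h1 : (1 : R) ∈ J := by rw [hJ]; trivial
  obtain ⟨φ, hφ⟩ := h1
  exact ⟨φ, by rw [hφ, C_1]⟩

end Pool.Agent.Helper47.SplMix
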